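import Mathlib

/-!
# Systems of Seifert circles with complex values on the faces, contraction of twist blocks

`Ws P`: the visits of the Seifert circles to the crossings (a visit is named after the edge on which it leaves; the edge on which it enters is `sg⁻¹ p`), `op p` is the
other visit of the same crossing, `lf p = true`: the visit is the left one. `L`, `R`: values on the two sides of an edge. A visit `p` is `Bi` if the two edges `p`, `op p`
which leave its crossing enter the same crossing, on the same sides. For a set `I` of such visits, closed under `op`, `hI.ct` is the system in which every maximal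
chain of visits in `I` (together with the next visit) is replaced by one crossing.
-/

set_option autoImplicit false

namespace Pool.Agent.Helper2.V8B

section Ret

variable {P : Type} [Finite P] (σ : Equiv.Perm P) (B : P → Prop)

theorem exists_ret {e : P} (he : B e) : ∃ k, 0 < k ∧ B ((σ ^ k) e) :=
  ⟨orderOf σ, orderOf_pos σ, by rw [pow_orderOf_eq_one]; exact he⟩

open Classical in
/-- The time of the first return. -/
noncomputable def rt (e : {e // B e}) : ℕ := Nat.find (exists_ret σ B e.2)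

theorem rt_pos (e : {e // B e}) : 0 < rt σ B e := by
  classical
  exact (Nat.find_spec (exists_ret σ B e.2)).1

theorem rt_mem (e : {e // B e}) : B ((σ ^ rt σ B e) e) := by
  classical
  exact (Nat.find_spec (exists_ret σ B e.2)).2

theorem rt_not {e : {e // B e}} {i : ℕ} (h0 : 0 < i) (h : i < rt σ B e) : ¬ B ((σ ^ i) e) := by
  classical
  exact fun h2 => Nat.find_min (exists_ret σ B e.2) h ⟨h0, h2⟩

theorem rt_eq {e : {e // B e}} {k : ℕ} (h0 : 0 < k) (h1 : B ((σ ^ k) e)) (h2 : ∀ i, 0 < i → i < k → ¬ B ((σ ^ i) e)) : rt σ B e = k := by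
  rcases lt_trichotomy (rt σ B e) k with h | h | h
  · exact absurd (rt_mem σ B e) (h2 _ (rt_pos σ B e) h)
  · exact h
  · exact absurd h1 (rt_not σ B h0 h)

/-- The first return. -/
noncomputable def ret (e : {e // B e}) : {e // B e} := ⟨(σ ^ rt σ B e) e, rt_mem σ B e⟩

theorem ret_inj_aux {e f : {e // B e}} (h : ret σ B e = ret σ B f) (hk : rt σ B e ≤ rt σ B f) : e = f := by
  have h1 : (σ ^ rt σ B e) (e : P) = (σ ^ rt σ B f) (f : P) := congrArg Subtype.val h
  have h2 : (σ ^ rt σ B f) (f : P) = (σ ^ rt σ B e) ((σ ^ (rt σ B f - rt σ B e)) (f : P)) := by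
    rw [← Equiv.Perm.mul_apply, ← pow_add, Nat.add_sub_cancel' hk]
  have h3 : (e : P) = (σ ^ (rt σ B f - rt σ B e)) (f : P) := (σ ^ rt σ B e).injective (h1.trans h2)
  rcases Nat.eq_zero_or_pos (rt σ B f - rt σ B e) with h4 | h4
  · rw [h4, pow_zero] at h3
    exact Subtype.ext h3
  · have h5 := rt_pos σ B e
    exact absurd (h3 ▸ e.2) (rt_not σ B h4 (by omega))

theorem ret_inj : Function.Injective (ret σ B) := by
  intro e f h
  rcases le_total (rt σ B e) (rt σ B f) with hk | hk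
  · exact ret_inj_aux σ B h hk
  · exact (ret_inj_aux σ B h.symm hk).symm

/-- The first return as a permutation. -/
noncomputable def rp : Equiv.Perm {e // B e} := Equiv.ofBijective (ret σ B) (Finite.injective_iff_bijective.1 (ret_inj σ B))

theorem rp_apply (e : {e // B e}) : ((rp σ B e : {e // B e}) : P) = (σ ^ rt σ B e) e := rfl

/-- The orbit of the first return map lies in the orbit of `σ`. -/
theorem rp_pow (e : {e // B e}) (n : ℕ) : ∃ k, (((rp σ B ^ n) e : {e // B e}) : P) = (σ ^ k) e := by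
  induction n with
  | zero => exact ⟨0, rfl⟩
  | succ n ih =>
    obtain ⟨k, hk⟩ := ih
    refine ⟨rt σ B ((rp σ B ^ n) e) + k, ?_⟩
    rw [pow_succ', Equiv.Perm.mul_apply, rp_apply, hk, pow_add, Equiv.Perm.mul_apply]

end Ret

/-- A system of Seifert circles with values on the faces. -/
structure Ws (P : Type) where
  sg : Equiv.Perm P
  op : P → P
  lf : P → Bool
  L : P → ℂ
  R : P → ℂ
  op_op : ∀ p, op (op p) = p
  lf_op : ∀ p, lf (op p) = !lf p
  west : ∀ p, lf p = true → L (sg.symm p) = L p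
  east : ∀ p, lf p = false → R (sg.symm p) = R p
  south : ∀ p, lf p = true → R (sg.symm p) = L (sg.symm (op p))
  north : ∀ p, lf p = true → R p = L (op p)

namespace Ws

variable {P : Type} (W : Ws P)

/-- The edges `p` and `op p` form a bigon. -/
def Bi (p : P) : Prop := W.sg (W.op p) = W.op (W.sg p) ∧ W.lf (W.sg p) = W.lf p

variable {W}

theorem Bi.op {p : P} (h : W.Bi p) : W.Bi (W.op p) := by
  refine ⟨?_, ?_⟩
  · rw [W.op_op, h.1, W.op_op]
  · rw [h.1, W.lf_op, W.lf_op, h.2]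

theorem bi_op {p : P} : W.Bi (W.op p) ↔ W.Bi p := by
  refine ⟨fun h => ?_, fun h => h.op⟩
  have h1 := h.op
  rwa [W.op_op] at h1

theorem west' {p : P} (h : W.lf (W.sg p) = true) : W.L (W.sg p) = W.L p := by
  have h1 := W.west _ h
  rw [Equiv.symm_apply_apply] at h1
  exact h1.symm

theorem east' {p : P} (h : W.lf (W.sg p) = false) : W.R (W.sg p) = W.R p := by
  have h1 := W.east _ h
  rw [Equiv.symm_apply_apply] at h1
  exact h1.symm

/-- `I` is a set of bigons. -/
structure Blk (W : Ws P) (I : P → Prop) : Prop where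
  bi : ∀ p, I p → W.Bi p
  op : ∀ p, I p → I (W.op p)

namespace Blk

variable {I : P → Prop} (hI : Blk W I)

include hI

theorem op_iff {p : P} : I (W.op p) ↔ I p := by
  refine ⟨fun h => ?_, hI.op p⟩
  have h1 := hI.op _ h
  rwa [W.op_op] at h1

variable [Finite P]

/-- The visits in a block are on the same side. -/
theorem lf_pow {q : {p // ¬ I p}} {i : ℕ} (h0 : 0 < i) (h : i ≤ rt W.sg (fun p => ¬ I p) q) :
    W.lf ((W.sg ^ i) (q : P)) = W.lf (rp W.sg (fun p => ¬ I p) q : {p // ¬ I p}) := by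
  induction h using Nat.decreasingInduction with
  | self => rfl
  | of_succ i hi ih =>
    rw [← ih (by omega)]
    have h1 : W.Bi ((W.sg ^ i) (q : P)) := hI.bi _ (not_not.1 (rt_not W.sg (fun p => ¬ I p) h0 hi))
    rw [pow_succ', Equiv.Perm.mul_apply, h1.2]

/-- The partner of the first visit. -/
theorem partner {q : {p // ¬ I p}} : ∃ q' : {p // ¬ I p}, (W.sg (q' : P) = W.op (W.sg (q : P))) ∧
    (rp W.sg (fun p => ¬ I p) q' : P) = W.op (rp W.sg (fun p => ¬ I p) q : {p // ¬ I p}) ∧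
    (∀ i, 0 < i → i ≤ rt W.sg (fun p => ¬ I p) q → (W.sg ^ i) (q' : P) = W.op ((W.sg ^ i) (q : P))) ∧
    rt W.sg (fun p => ¬ I p) q' = rt W.sg (fun p => ¬ I p) q := by
  have h0 : ¬ I (W.sg.symm (W.op (W.sg (q : P)))) := by
    intro h
    have h1 := (hI.bi _ h).1
    rw [Equiv.apply_symm_apply, W.op_op] at h1
    have h2 := W.sg.injective h1
    have h3 := hI.op _ h
    rw [h2] at h3
    exact q.2 h3
  set q' : {p // ¬ I p} := ⟨W.sg.symm (W.op (W.sg (q : P))), h0⟩ with hq'
  have h1 : W.sg (q' : P) = W.op (W.sg (q : P)) := by rw [hq', Equiv.apply_symm_apply]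
  have h2 : ∀ i, 0 < i → i ≤ rt W.sg (fun p => ¬ I p) q → (W.sg ^ i) (q' : P) = W.op ((W.sg ^ i) (q : P)) := by
    intro i hi0 hi
    induction i, hi0 using Nat.le_induction with
    | base => simpa using h1
    | succ i hi0 ih =>
      have h3 : W.Bi ((W.sg ^ i) (q : P)) := hI.bi _ (not_not.1 (rt_not W.sg (fun p => ¬ I p) (by omega) (by omega)))
      rw [pow_succ', Equiv.Perm.mul_apply, ih (by omega), h3.1, Equiv.Perm.mul_apply]
  have h3 : rt W.sg (fun p => ¬ I p) q' = rt W.sg (fun p => ¬ I p) q := by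
    refine rt_eq _ _ (rt_pos _ _ _) ?_ ?_
    · rw [h2 _ (rt_pos _ _ _) le_rfl, hI.op_iff]
      exact rt_mem W.sg (fun p => ¬ I p) q
    · intro i hi0 hi
      rw [h2 i hi0 hi.le, hI.op_iff]
      exact rt_not W.sg (fun p => ¬ I p) hi0 hi
  refine ⟨q', h1, ?_, h2, h3⟩
  rw [rp_apply, h3, h2 _ (rt_pos _ _ _) le_rfl]
  rfl

/-- The two visits of the block before the partner. -/
theorem symm_op (p : {p // ¬ I p}) (hop : ¬ I (W.op (p : P))) :
    W.sg ((rp W.sg (fun p => ¬ I p)).symm ⟨W.op p, hop⟩ : {p // ¬ I p}) =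
      W.op (W.sg ((rp W.sg (fun p => ¬ I p)).symm p : {p // ¬ I p})) := by
  obtain ⟨q', h1, h2, -, -⟩ := hI.partner (q := (rp W.sg (fun p => ¬ I p)).symm p)
  have h3 : rp W.sg (fun p => ¬ I p) q' = ⟨W.op p, hop⟩ := by
    refine Subtype.ext ?_
    rw [h2, Equiv.apply_symm_apply]
  rw [← h3, Equiv.symm_apply_apply, h1]

theorem L_const {q : {p // ¬ I p}} (h : W.lf (rp W.sg (fun p => ¬ I p) q : {p // ¬ I p}) = true) {i : ℕ}
    (hi : i ≤ rt W.sg (fun p => ¬ I p) q) : W.L ((W.sg ^ i) (q : P)) = W.L (q : P) := by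
  induction i with
  | zero => rfl
  | succ i ih =>
    have h1 := hI.lf_pow (q := q) (i := i + 1) (by omega) hi
    rw [h] at h1
    rw [pow_succ', Equiv.Perm.mul_apply] at h1 ⊢
    rw [west' h1, ih (by omega)]

theorem R_const {q : {p // ¬ I p}} (h : W.lf (rp W.sg (fun p => ¬ I p) q : {p // ¬ I p}) = false) {i : ℕ}
    (hi : i ≤ rt W.sg (fun p => ¬ I p) q) : W.R ((W.sg ^ i) (q : P)) = W.R (q : P) := by
  induction i with
  | zero => rfl
  | succ i ih =>
    have h1 := hI.lf_pow (q := q) (i := i + 1) (by omega) hi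
    rw [h] at h1
    rw [pow_succ', Equiv.Perm.mul_apply] at h1 ⊢
    rw [east' h1, ih (by omega)]

/-- The contracted system: every chain of bigons becomes one crossing. -/
noncomputable def ct : Ws {p // ¬ I p} where
  sg := rp W.sg (fun p => ¬ I p)
  op p := ⟨W.op p, fun h => p.2 (hI.op_iff.1 h)⟩
  lf p := W.lf p
  L p := W.L p
  R p := W.R p
  op_op p := Subtype.ext (W.op_op p)
  lf_op p := W.lf_op p
  west p hp := by
    obtain ⟨q, rfl⟩ := (rp W.sg (fun p => ¬ I p)).surjective p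
    rw [Equiv.symm_apply_apply]
    exact (hI.L_const hp le_rfl).symm
  east p hp := by
    obtain ⟨q, rfl⟩ := (rp W.sg (fun p => ¬ I p)).surjective p
    rw [Equiv.symm_apply_apply]
    exact (hI.R_const hp le_rfl).symm
  south p hp := by
    have h1 := hI.symm_op p (fun h => p.2 (hI.op_iff.1 h))
    have h2 : W.lf (W.sg ((rp W.sg (fun p => ¬ I p)).symm p : {p // ¬ I p})) = true := by
      have h3 := hI.lf_pow (q := (rp W.sg (fun p => ¬ I p)).symm p) (i := 1) one_pos (rt_pos _ _ _)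
      rw [Equiv.apply_symm_apply, hp] at h3
      simpa using h3
    have h4 := W.south _ h2
    rw [← h1, Equiv.symm_apply_apply, Equiv.symm_apply_apply] at h4
    exact h4
  north p hp := W.north p hp

omit hI in
/-- The number of crossings of the block which ends with the visit `p`. -/
noncomputable def len (W : Ws P) (I : P → Prop) (p : {p // ¬ I p}) : ℕ := rt W.sg (fun p => ¬ I p) ((rp W.sg (fun p => ¬ I p)).symm p)

omit hI in
theorem len_pos (p : {p // ¬ I p}) : 0 < len W I p := rt_pos _ _ _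

theorem len_op (p : {p // ¬ I p}) : len W I (hI.ct.op p) = len W I p := by
  obtain ⟨q', h1, h2, -, h4⟩ := hI.partner (q := (rp W.sg (fun p => ¬ I p)).symm p)
  have h3 : rp W.sg (fun p => ¬ I p) q' = hI.ct.op p := by
    refine Subtype.ext ?_
    rw [h2, Equiv.apply_symm_apply]
    rfl
  unfold len
  rw [← h3, Equiv.symm_apply_apply, h4]

omit hI in
/-- A block with exactly two crossings. -/
theorem len_two {p : {p // ¬ I p}} (h : len W I p = 2) : I (W.sg.symm p) ∧ ¬ I (W.sg.symm (W.sg.symm p)) := by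
  obtain ⟨q, rfl⟩ := (rp W.sg (fun p => ¬ I p)).surjective p
  unfold len at h
  rw [Equiv.symm_apply_apply] at h
  rw [rp_apply, h]
  have h1 : (W.sg ^ 2) (q : P) = W.sg (W.sg q) := rfl
  rw [h1, Equiv.symm_apply_apply, Equiv.symm_apply_apply]
  exact ⟨not_not.1 (rt_not W.sg (fun p => ¬ I p) (i := 1) one_pos (by omega)), q.2⟩

omit hI in
/-- A block with exactly one crossing. -/
theorem len_one {p : {p // ¬ I p}} (h : ¬ I (W.sg.symm p)) : len W I p = 1 := by
  have h1 : (⟨W.sg.symm p, h⟩ : {p // ¬ I p}) = (rp W.sg (fun p => ¬ I p)).symm p := by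
    rw [Equiv.eq_symm_apply]
    have h2 : rt W.sg (fun p => ¬ I p) ⟨W.sg.symm p, h⟩ = 1 := by
      refine rt_eq _ _ one_pos ?_ (fun i h1 h2 => absurd h2 (by omega))
      rw [pow_one, Equiv.apply_symm_apply]
      exact p.2
    refine Subtype.ext ?_
    rw [rp_apply, h2, pow_one, Equiv.apply_symm_apply]
  unfold len
  rw [← h1]
  refine rt_eq _ _ one_pos ?_ (fun i h1 h2 => absurd h2 (by omega))
  rw [pow_one, Equiv.apply_symm_apply]
  exact p.2

omit hI in
omit [Finite P] in
/-- The relation of a positive crossing. -/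
def Pos (W : Ws P) (s : ℂ) : Prop := ∀ p, W.lf p = true → W.R p + s ^ 2 * W.R (W.sg.symm p) = s * (W.L p + W.R (W.op p))

/-- In a block the right side of the left circle is a geometric sequence. -/
theorem geom {s : ℂ} (hW : Pos W s) {q : {p // ¬ I p}} (h : W.lf (rp W.sg (fun p => ¬ I p) q : {p // ¬ I p}) = true) {i : ℕ}
    (hi : i ≤ rt W.sg (fun p => ¬ I p) q) :
    (1 + s ^ 2) * W.R ((W.sg ^ i) (q : P)) -
        s * (W.L (rp W.sg (fun p => ¬ I p) q : {p // ¬ I p}) + W.R (W.op (rp W.sg (fun p => ¬ I p) q : {p // ¬ I p}))) =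
      (-s ^ 2) ^ i * ((1 + s ^ 2) * W.R (q : P) -
        s * (W.L (rp W.sg (fun p => ¬ I p) q : {p // ¬ I p}) + W.R (W.op (rp W.sg (fun p => ¬ I p) q : {p // ¬ I p})))) := by
  obtain ⟨q', h1, h2, h3, h4⟩ := hI.partner (q := q)
  have hE : ∀ i, 0 < i → i ≤ rt W.sg (fun p => ¬ I p) q →
      W.R (W.op ((W.sg ^ i) (q : P))) = W.R (W.op (rp W.sg (fun p => ¬ I p) q : {p // ¬ I p})) := by
    intro i hi0 hi
    have h5 : W.lf (rp W.sg (fun p => ¬ I p) q' : {p // ¬ I p}) = false := by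
      rw [h2, W.lf_op, h]
      rfl
    rw [← h3 i hi0 hi, ← h2, rp_apply, hI.R_const h5 (by rw [h4]; exact hi), hI.R_const h5 le_rfl]
  have hL : ∀ i, i ≤ rt W.sg (fun p => ¬ I p) q → W.L ((W.sg ^ i) (q : P)) = W.L (rp W.sg (fun p => ¬ I p) q : {p // ¬ I p}) := by
    intro i hi
    rw [hI.L_const h hi, rp_apply, hI.L_const h le_rfl]
  induction i with
  | zero => simp
  | succ i ih =>
    have h5 := ih (by omega)
    have h6 := hI.lf_pow (q := q) (i := i + 1) (by omega) hi
    rw [h] at h6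
    have h7 := hW _ h6
    rw [hL _ hi, hE _ (by omega) hi] at h7
    have h8 : W.sg.symm ((W.sg ^ (i + 1)) (q : P)) = (W.sg ^ i) (q : P) := by
      rw [pow_succ', Equiv.Perm.mul_apply, Equiv.symm_apply_apply]
    rw [h8] at h7
    rw [pow_succ]
    linear_combination (1 + s ^ 2) * h7 + (-s ^ 2) * h5

/-- The relation of a block: `s (W + E) (1 - ρ ^ m) = (1 + s²) (S (1 - ρ ^ m) + D)`. -/
theorem block {s : ℂ} (hW : Pos W s) (p : {p // ¬ I p}) (hp : hI.ct.lf p = true) :
    s * (hI.ct.L p + hI.ct.R (hI.ct.op p)) * (1 - (-s ^ 2) ^ len W I p) =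
      (1 + s ^ 2) * (hI.ct.R (hI.ct.sg.symm p) * (1 - (-s ^ 2) ^ len W I p) + (hI.ct.R p - hI.ct.R (hI.ct.sg.symm p))) := by
  obtain ⟨q, rfl⟩ := (rp W.sg (fun p => ¬ I p)).surjective p
  have h1 := hI.geom hW (q := q) hp le_rfl
  have h3 : len W I (rp W.sg (fun p => ¬ I p) q) = rt W.sg (fun p => ¬ I p) q := by
    unfold len
    rw [Equiv.symm_apply_apply]
  have h2 : hI.ct.sg.symm (rp W.sg (fun p => ¬ I p) q) = q := Equiv.symm_apply_apply _ _
  rw [h2, h3]
  show s * (W.L (rp W.sg (fun p => ¬ I p) q : {p // ¬ I p}) + W.R (W.op (rp W.sg (fun p => ¬ I p) q : {p // ¬ I p}))) * _ =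
    (1 + s ^ 2) * (W.R (q : P) * _ + (W.R (rp W.sg (fun p => ¬ I p) q : {p // ¬ I p}) - W.R (q : P)))
  rw [rp_apply] at h1 ⊢
  linear_combination -h1

omit hI in
omit [Finite P] in
theorem rho_lt {s : ℂ} (hs : ‖s‖ < 1) : ‖s ^ 2‖ < 1 := by
  rw [norm_pow]
  nlinarith [norm_nonneg s]

omit hI in
omit [Finite P] in
theorem rho_pow_ne {s : ℂ} (hs : ‖s‖ < 1) {m : ℕ} (hm : 0 < m) : (-s ^ 2) ^ m ≠ 1 := by
  intro h3
  have h4 := congrArg norm h3
  rw [norm_pow, norm_neg, norm_one] at h4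
  have h5 := pow_lt_one₀ (norm_nonneg _) (rho_lt hs) hm.ne'
  linarith

/-- If the values before and after a block agree, they agree at every crossing of the block. -/
theorem inner {s : ℂ} (hs : ‖s‖ < 1) (hW : Pos W s) {q : {p // ¬ I p}}
    (h : W.lf (rp W.sg (fun p => ¬ I p) q : {p // ¬ I p}) = true)
    (hD : W.R (rp W.sg (fun p => ¬ I p) q : {p // ¬ I p}) = W.R (q : P)) {i : ℕ} (hi : i ≤ rt W.sg (fun p => ¬ I p) q) :
    W.R ((W.sg ^ i) (q : P)) = W.R (q : P) := by
  have h1 := hI.geom hW h le_rfl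
  have h2 := hI.geom hW h hi
  have h3 := rho_pow_ne hs (rt_pos W.sg (fun p => ¬ I p) q)
  have h4 : (1 + s ^ 2) ≠ 0 := by
    intro h4
    have h5 : s ^ 2 = -1 := by linear_combination h4
    have hn := rho_lt hs
    rw [h5] at hn
    simp at hn
  rw [rp_apply] at hD
  set X := (1 + s ^ 2) * W.R (q : P) -
        s * (W.L (rp W.sg (fun p => ¬ I p) q : {p // ¬ I p}) + W.R (W.op (rp W.sg (fun p => ¬ I p) q : {p // ¬ I p}))) with hX
  rw [hD, ← hX] at h1
  have h5 : X = 0 := by
    have h6 : X * (1 - (-s ^ 2) ^ rt W.sg (fun p => ¬ I p) q) = 0 := by linear_combination h1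
    rcases mul_eq_zero.1 h6 with h7 | h7
    · exact h7
    · exact absurd (by linear_combination -h7) h3
  rw [h5, mul_zero] at h2
  have h6 : (1 + s ^ 2) * (W.R ((W.sg ^ i) (q : P)) - W.R (q : P)) = 0 := by
    rw [hX] at h5
    linear_combination h2 - h5
  rcases mul_eq_zero.1 h6 with h7 | h7
  · exact absurd h7 h4
  · exact sub_eq_zero.1 h7

omit hI in
/-- A visit lies in a block, or its circle consists of bigons. -/
theorem dich (p : P) : (∃ (q : {p // ¬ I p}) (i : ℕ), i < rt W.sg (fun p => ¬ I p) q ∧ p = (W.sg ^ (i + 1)) (q : P)) ∨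
    ∀ j : ℕ, I ((W.sg ^ j) p) := by
  classical
  by_cases h : ∃ k : ℕ, ¬ I ((W.sg.symm ^ (k + 1)) p)
  · left
    obtain ⟨k, hk, hk'⟩ : ∃ k : ℕ, ¬ I ((W.sg.symm ^ (k + 1)) p) ∧ ∀ j < k, I ((W.sg.symm ^ (j + 1)) p) :=
      ⟨Nat.find h, Nat.find_spec h, fun j hj => not_not.1 (Nat.find_min h hj)⟩
    have hsub : ∀ i, i ≤ k + 1 → (W.sg ^ i) ((W.sg.symm ^ (k + 1)) p) = (W.sg.symm ^ (k + 1 - i)) p := by
      intro i hi
      have h1 : (W.sg.symm : Equiv.Perm P) = W.sg⁻¹ := rfl
      rw [h1, ← Equiv.Perm.mul_apply]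
      congr 1
      rw [inv_pow, inv_pow]
      have h2 : W.sg ^ (k + 1) = W.sg ^ (k + 1 - i) * W.sg ^ i := by
        rw [← pow_add]
        congr 1
        omega
      rw [h2, mul_inv_rev, ← mul_assoc, mul_inv_cancel, one_mul]
    refine ⟨⟨_, hk⟩, k, ?_, ?_⟩
    · by_contra hcon
      have h1 := rt_mem W.sg (fun p => ¬ I p) ⟨_, hk⟩
      have h2 := rt_pos W.sg (fun p => ¬ I p) ⟨_, hk⟩
      refine h1 ?_
      show I ((W.sg ^ _) ((W.sg.symm ^ (k + 1)) p))
      rw [hsub _ (by omega)]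
      obtain ⟨j, hj⟩ : ∃ j, k + 1 - rt W.sg (fun p => ¬ I p) ⟨_, hk⟩ = j + 1 := ⟨k - rt W.sg (fun p => ¬ I p) ⟨_, hk⟩, by omega⟩
      rw [hj]
      exact hk' j (by omega)
    · show p = (W.sg ^ (k + 1)) ((W.sg.symm ^ (k + 1)) p)
      rw [hsub _ le_rfl, Nat.sub_self, pow_zero]
      rfl
  · right
    push Not at h
    intro j
    have h1 : (W.sg.symm : Equiv.Perm P) = W.sg⁻¹ := rfl
    have h2 : (W.sg ^ j) p = (W.sg.symm ^ ((orderOf W.sg * (j + 1) - j - 1) + 1)) p := by
      congr 1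
      rw [h1, inv_pow, eq_inv_iff_mul_eq_one, ← pow_add]
      have h3 := orderOf_pos W.sg
      have h4 : 1 * (j + 1) ≤ orderOf W.sg * (j + 1) := Nat.mul_le_mul_right _ h3
      have h5 : j + (orderOf W.sg * (j + 1) - j - 1 + 1) = orderOf W.sg * (j + 1) := by omega
      rw [h5, pow_mul, pow_orderOf_eq_one, one_pow]
    rw [h2]
    exact h _

/-- A circle which consists of bigons. -/
theorem closed {s : ℂ} (hs : ‖s‖ < 1) (hW : Pos W s) {p : P} (hp : W.lf p = true) (h : ∀ j : ℕ, I ((W.sg ^ j) p)) :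
    W.R p = W.R (W.sg.symm p) := by
  have hl : ∀ j : ℕ, W.lf ((W.sg ^ j) p) = true := by
    intro j
    induction j with
    | zero => exact hp
    | succ j ih =>
      rw [pow_succ', Equiv.Perm.mul_apply, (hI.bi _ (h j)).2, ih]
  have hd : ∀ j : ℕ, W.R ((W.sg ^ j) p) - W.R (W.sg.symm ((W.sg ^ j) p)) = (-s ^ 2) ^ j * (W.R p - W.R (W.sg.symm p)) := by
    intro j
    induction j with
    | zero => simp
    | succ j ih =>
      have h1 := hW _ (hl j)
      have h2 := hW _ (hl (j + 1))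
      have h4 := (hI.bi _ (h j)).1
      have h5 := hl (j + 1)
      rw [pow_succ', Equiv.Perm.mul_apply] at h2 h5 ⊢
      rw [Equiv.symm_apply_apply] at h2 ⊢
      have h6 : W.R (W.op (W.sg ((W.sg ^ j) p))) = W.R (W.op ((W.sg ^ j) p)) := by
        rw [← h4]
        refine east' ?_
        rw [h4, W.lf_op, h5]
        rfl
      rw [west' h5, h6] at h2
      rw [pow_succ]
      linear_combination h2 - h1 + (-s ^ 2) * ih
  have h1 := hd (orderOf W.sg)
  rw [pow_orderOf_eq_one, Equiv.Perm.one_apply] at h1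
  have h2 := rho_pow_ne hs (orderOf_pos W.sg)
  have h3 : (W.R p - W.R (W.sg.symm p)) * (1 - (-s ^ 2) ^ orderOf W.sg) = 0 := by linear_combination h1
  rcases mul_eq_zero.1 h3 with h4 | h4
  · exact sub_eq_zero.1 h4
  · exact absurd (by linear_combination -h4) h2

/-- If all blocks have the same value on both sides, all crossings have. -/
theorem all_of {s : ℂ} (hs : ‖s‖ < 1) (hW : Pos W s)
    (hD : ∀ p : {p // ¬ I p}, hI.ct.lf p = true → hI.ct.R p = hI.ct.R (hI.ct.sg.symm p)) {p : P} (hp : W.lf p = true) :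
    W.R p = W.R (W.sg.symm p) := by
  rcases dich (W := W) (I := I) p with ⟨q, i, hi, rfl⟩ | h
  · have h1 := hI.lf_pow (q := q) (i := i + 1) (by omega) hi
    rw [hp] at h1
    have h2 := hD (rp W.sg (fun p => ¬ I p) q) h1.symm
    have h3 : hI.ct.sg.symm (rp W.sg (fun p => ¬ I p) q) = q := Equiv.symm_apply_apply _ _
    rw [h3] at h2
    have h4 : W.sg.symm ((W.sg ^ (i + 1)) (q : P)) = (W.sg ^ i) (q : P) := by
      rw [pow_succ', Equiv.Perm.mul_apply, Equiv.symm_apply_apply]
    rw [h4, hI.inner hs hW h1.symm h2 hi, hI.inner hs hW h1.symm h2 (by omega)]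
  · exact hI.closed hs hW hp h

end Blk

end Ws

end Pool.Agent.Helper2.V8B
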