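import Pool.Agent.Helper2.V8B.Def
import Pool.Agent.Helper2.V8B.Contract
import Pool.Agent.Helper30.VQ.Cir
import Pool.Agent.Helper43.V6.Bridge

/-!
# The numbers of twist regions as numbers of steps of the first return
-/

set_option autoImplicit false

namespace Pool.Agent.Helper2.V8B

open Finset Pool.Agent.Helper85.Exp Pool.Agent.Helper43.Pln Pool.Agent.Helper59.V8 Pool.Agent.Helper30.VQ

section

variable {P : Type} [Finite P] (σ : Equiv.Perm P) (B : P → Prop)

/-- Every return is an iterate of the first return. -/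
theorem rp_all (k : ℕ) : ∀ e : {e // B e}, ∀ h : B ((σ ^ k) e), ∃ j : ℕ, (rp σ B ^ j) e = ⟨(σ ^ k) e, h⟩ := by
  induction k using Nat.strong_induction_on with
  | _ k ih =>
    intro e h
    rcases Nat.eq_zero_or_pos k with rfl | hk
    · exact ⟨0, Subtype.ext rfl⟩
    · have h1 : rt σ B e ≤ k := by
        by_contra hcon
        exact rt_not σ B hk (by omega) h
      have h2 := rt_pos σ B e
      have h3 : (σ ^ (k - rt σ B e)) (rp σ B e : {e // B e}) = (σ ^ k) (e : P) := by
        rw [rp_apply, ← Equiv.Perm.mul_apply, ← pow_add, Nat.sub_add_cancel h1]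
      obtain ⟨j, hj⟩ := ih (k - rt σ B e) (by omega) (rp σ B e) (by rw [h3]; exact h)
      refine ⟨j + 1, ?_⟩
      rw [pow_succ, Equiv.Perm.mul_apply, hj]
      exact Subtype.ext h3

theorem same_iff {e q : {e // B e}} : (rp σ B).SameCycle e q ↔ σ.SameCycle e q := by
  constructor
  · intro h
    obtain ⟨i, hi⟩ := h.exists_nat_pow_eq
    obtain ⟨k, hk⟩ := rp_pow σ B e i
    exact ⟨(k : ℤ), by rw [zpow_natCast, ← hk, hi]⟩
  · intro h
    obtain ⟨i, hi⟩ := h.exists_nat_pow_eq
    obtain ⟨j, hj⟩ := rp_all σ B i e (by rw [hi]; exact q.2)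
    refine ⟨(j : ℤ), ?_⟩
    rw [zpow_natCast, hj]
    exact Subtype.ext hi

end

section

variable {P : Type} [Fintype P]

/-- Counting visits on one side as steps, for a permutation. -/
theorem count_perm (σ : Equiv.Perm P) (f : P → Bool) (e : P) :
    ((range (Function.minimalPeriod σ e)).filter fun k => f (σ ((σ ^ k) e)) = true).card = Nat.card {q : P // σ.SameCycle e q ∧ f q = true} := by
  classical
  rw [Nat.card_eq_fintype_card, Fintype.card_subtype]
  refine Finset.card_bij (fun k _ => (σ ^ (k + 1)) e) ?_ ?_ ?_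
  · intro k hk
    rw [mem_filter, mem_range] at hk
    rw [mem_filter]
    refine ⟨mem_univ _, ⟨((k + 1 : ℕ) : ℤ), by rw [zpow_natCast]⟩, ?_⟩
    rw [pow_succ', Equiv.Perm.mul_apply, hk.2]
  · intro k hk l hl h
    rw [mem_filter, mem_range] at hk hl
    simp only [pow_succ', Equiv.Perm.mul_apply] at h
    exact Pool.Agent.Helper43.V6.pow_inj _ hk.1 hl.1 (σ.injective h)
  · intro q hq
    rw [mem_filter] at hq
    have hq1 : σ.SameCycle e (σ.symm q) := hq.2.1.trans ⟨-1, by rw [zpow_neg_one]; rfl⟩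
    obtain ⟨k, hk, hkq⟩ := Pool.Agent.Helper43.V6.exists_lt_period σ hq1
    refine ⟨k, ?_, ?_⟩
    · rw [mem_filter, mem_range]
      refine ⟨hk, ?_⟩
      rw [hkq, Equiv.apply_symm_apply, hq.2.2]
    · simp only [pow_succ', Equiv.Perm.mul_apply]
      rw [hkq, Equiv.apply_symm_apply]

variable {G : Sh P} {I : P → Prop}

/-- The step `e → rp e` passes a twist region on the left side. -/
noncomputable def lst (G : Sh P) (I : P → Prop) (e : {p // ¬ I p}) : Bool := !G.lf (rp (seifert G) (fun p => ¬ I p) e : {p // ¬ I p})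

open Classical in
theorem nL_eq (e : {p // ¬ I p}) : nL (rp (seifert G) (fun p => ¬ I p)) (lst G I) e = side G I false e := by
  unfold nL
  have h := count_perm (rp (seifert G) (fun p => ¬ I p)) (fun q => !G.lf (q : P)) e
  refine Eq.trans h ?_
  unfold side
  refine Nat.card_congr ⟨fun q => ⟨q.1.1, (same_iff _ _).1 q.2.1, q.1.2, by simpa using q.2.2⟩,
    fun q => ⟨⟨q.1, q.2.2.1⟩, (same_iff _ _).2 q.2.1, by simpa using q.2.2.2⟩, fun q => ?_, fun q => ?_⟩
  · rfl
  · rfl

open Classical in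
theorem nR_eq (e : {p // ¬ I p}) : nR (rp (seifert G) (fun p => ¬ I p)) (lst G I) e = side G I true e := by
  unfold nR
  have h := count_perm (rp (seifert G) (fun p => ¬ I p)) (fun q => G.lf (q : P)) e
  have h2 : ∀ k, (lst G I (((rp (seifert G) (fun p => ¬ I p)) ^ k) e) = false) ↔
      (G.lf ((rp (seifert G) (fun p => ¬ I p)) (((rp (seifert G) (fun p => ¬ I p)) ^ k) e) : {p // ¬ I p}) = true) := by
    intro k
    unfold lst
    simp
  simp only [h2]
  refine Eq.trans h ?_
  unfold side
  refine Nat.card_congr ⟨fun q => ⟨q.1.1, (same_iff _ _).1 q.2.1, q.1.2, q.2.2⟩,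
    fun q => ⟨⟨q.1, q.2.2.1⟩, (same_iff _ _).2 q.2.1, q.2.2.2⟩, fun q => ?_, fun q => ?_⟩
  · rfl
  · rfl

open Classical in
theorem wt_eq (α : ℝ) (e : {p // ¬ I p}) : wt α (rp (seifert G) (fun p => ¬ I p)) (lst G I) e = weight α G I e := by
  have h1 := nL_eq (G := G) e
  have h2 := nR_eq (G := G) e
  have h3 := nL_add_nR (rp (seifert G) (fun p => ¬ I p)) (lst G I) e
  unfold wt weight total bet
  rw [← h3, h1, h2, mul_comm (side G I false (e : P) : ℝ), add_comm (side G I false (e : P))]

end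

end Pool.Agent.Helper2.V8B
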