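import Pool.Agent.Helper43.PD.Plane

/-!
# Bigons, twist regions, the weights of the Seifert circles

At the crossing of the passages `p` and `op p` the two Seifert circles leave along the edges `p` and `op p`. A visit `q` of a Seifert circle to a crossing is named after
the edge `q` on which it leaves; if `lf q = true` the crossing is on the right side of the circle, otherwise on the left side.
-/

set_option autoImplicit false

namespace Pool.Agent.Helper2.V8B

open Pool.Agent.Helper85.Exp Pool.Agent.Helper43.Pln

variable {P : Type}

/-- The edges `p` and `op p`, which leave the same crossing, also enter the same crossing, on the same sides: they bound a bigon between two parallel crossings of the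
same two Seifert circles. -/
def Bigon (G : Sh P) (p : P) : Prop := G.nxt (G.op p) = G.op (G.nxt p) ∧ G.lf (G.op (G.nxt p)) = G.lf p

/-- `I` is a set of bigons (each given by its two edges). The crossings fall into twist regions: two crossings are in the same one if they are joined by a chain of
bigons of `I`. -/
structure Bigons (G : Sh P) (I : P → Prop) : Prop where
  bigon : ∀ p, I p → Bigon G p
  op : ∀ p, I p → I (G.op p)

/-- The number of twist regions on the right side (`b = true`) or on the left side (`b = false`) of the Seifert circle that contains the edge `p`: a twist region is
counted at its last crossing. -/
noncomputable def side (G : Sh P) (I : P → Prop) (b : Bool) (p : P) : ℕ :=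
  Nat.card {q : P // (seifert G).SameCycle p q ∧ ¬ I q ∧ G.lf q = b}

/-- The number of twist regions on the Seifert circle that contains the edge `p`. -/
noncomputable def total (G : Sh P) (I : P → Prop) (p : P) : ℕ := side G I true p + side G I false p

/-- The weight of the Seifert circle that contains the edge `p`. -/
noncomputable def weight (α : ℝ) (G : Sh P) (I : P → Prop) (p : P) : ℝ :=
  α * (Real.cot (Real.pi / total G I p) / 2) + (1 - α) * (√(side G I true p * side G I false p) / 4)

/-- The twist region whose last crossing is left along the edge `p` has exactly two crossings. -/
def Two (G : Sh P) (I : P → Prop) (p : P) : Prop := I ((seifert G).symm p) ∧ ¬ I ((seifert G).symm ((seifert G).symm p))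

end Pool.Agent.Helper2.V8B
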