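import Pool.Agent.Helper2.V8B.Main
import Pool.Agent.Helper30.VQ.Block
import Pool.Agent.Helper43.V6.Cot

/-!
# The criterion with twist regions: final form and corollaries
-/

set_option autoImplicit false

namespace Pool.Agent.Helper2.V8B

open Polynomial Pool.Agent.Helper85.Exp Pool.Agent.Helper60.EV2 Pool.Agent.Helper2.PD Pool.Agent.Helper43.Pln

variable {P : Type} [Fintype P] {G : Sh P}

/-- **The criterion.** -/
theorem main (hG : Plane G) {α : ℝ} (h0 : 0 ≤ α) (h1 : α ≤ 1) {I : P → Prop} (hI : Bigons G I)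
    (hw : ∀ p, ¬ I p → weight α G I p + weight α G I (G.op p) ≤ √3 + 9 / 10 * α ∧
      (Two G I p → weight α G I p + weight α G I (G.op p) ≤ 5 / 3 + α)) {nab : Dg G → ℤ[X]} (hn : Cs nab) :
    LogConcave G nab ∧ ∀ z : ℂ, aeval z (nab (allPos G)) = 0 → 3 * z.re ^ 2 ≤ z.im ^ 2 :=
  (main_K (fun hs0 hs hsec _ ha0 ha1 _ hm => Pool.Agent.Helper30.VQ.margin hs0 hs hsec ha0 ha1 hm) hG nab hn h0 h1 hI (fun _ => False)
    (fun _ _ _ _ _ _ _ h => h.elim) (fun p hp _ _ => hw p hp)).symm

omit [Fintype P] in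
theorem bigon_op {p : P} (h : Bigon G p) : Bigon G (G.op p) := by
  obtain ⟨h1, h2⟩ := h
  refine ⟨?_, ?_⟩
  · rw [G.op_op, h1, G.op_op]
  · rw [h1, G.op_op]
    have h3 := G.lf_op (G.nxt p)
    have h4 := G.lf_op p
    by_cases ha : G.op (G.nxt p) = G.nxt p
    · by_cases hb : G.op p = p
      · rw [hb, ← h2, ha]
      · exfalso
        rw [ha] at h1
        exact hb (G.nxt.injective h1)
    · by_cases hb : G.op p = p
      · exfalso
        rw [hb] at h1
        exact ha h1.symm
      · rw [h4 hb, ← h2, h3 ha, Bool.not_not]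

omit [Fintype P] in
/-- All bigons. -/
theorem bigons_all (G : Sh P) : Bigons G (Bigon G) := ⟨fun _ h => h, fun _ h => bigon_op h⟩

theorem one_le_total (I : P → Prop) {p : P} (hp : ¬ I p) : 1 ≤ total G I p := by
  unfold total side
  cases h : G.lf p with
  | true =>
    have : 0 < Nat.card {q : P // (seifert G).SameCycle p q ∧ ¬ I q ∧ G.lf q = true} :=
      Nat.card_pos_iff.2 ⟨⟨⟨p, Equiv.Perm.SameCycle.refl _ _, hp, h⟩⟩, inferInstance⟩
    omega
  | false =>
    have : 0 < Nat.card {q : P // (seifert G).SameCycle p q ∧ ¬ I q ∧ G.lf q = false} :=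
      Nat.card_pos_iff.2 ⟨⟨⟨p, Equiv.Perm.SameCycle.refl _ _, hp, h⟩⟩, inferInstance⟩
    omega

/-- The weights for at most 17 twist regions on the two circles of a crossing. -/
theorem hw17 {I : P → Prop} (hI : Bigons G I) (h : ∀ p, ¬ I p → total G I p + total G I (G.op p) ≤ 17) (p : P) (hp : ¬ I p) :
    weight 1 G I p + weight 1 G I (G.op p) ≤ √3 + 9 / 10 * 1 ∧
      (Two G I p → weight 1 G I p + weight 1 G I (G.op p) ≤ 5 / 3 + 1) := by
  have hop : ¬ I (G.op p) := fun h2 => hp (by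
    have h3 := hI.op _ h2
    rwa [G.op_op] at h3)
  have h1 := Pool.Agent.Helper43.V6.bet_pair (one_le_total (G := G) I hp) (one_le_total (G := G) I hop) (h p hp)
  unfold Pool.Agent.Helper59.V8.bet at h1
  have hs : √3 ≤ 1.7321 := by
    rw [Real.sqrt_le_left (by norm_num)]
    norm_num
  unfold weight
  refine ⟨by linarith, fun _ => by linarith⟩

theorem sqrt_le_of {l r : ℕ} {k : ℝ} (hk : 0 ≤ k) (h : ((l * r : ℕ) : ℝ) ≤ k ^ 2) : √((l : ℝ) * r) ≤ k := by
  rw [Real.sqrt_le_left hk]
  push_cast at h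
  exact h

/-- The weights for `l r ≤ 12`, and `l r ≤ 11` at the twist regions with exactly two crossings. -/
theorem hw12 {I : P → Prop} (h : ∀ p, side G I false p * side G I true p ≤ 12)
    (h' : ∀ p, ¬ I p → Two G I p → side G I false p * side G I true p ≤ 11 ∧ side G I false (G.op p) * side G I true (G.op p) ≤ 11)
    (p : P) (hp : ¬ I p) :
    weight 0 G I p + weight 0 G I (G.op p) ≤ √3 + 9 / 10 * 0 ∧
      (Two G I p → weight 0 G I p + weight 0 G I (G.op p) ≤ 5 / 3 + 0) := by
  constructor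
  · have h1 := Pool.Agent.Helper43.V6.geo_pair (h p) (h (G.op p))
    unfold weight
    rw [mul_comm (side G I true p : ℝ), mul_comm (side G I true (G.op p) : ℝ)]
    linarith
  · intro h2
    obtain ⟨h3, h4⟩ := h' p hp h2
    have h5 : √((side G I false p : ℝ) * side G I true p) ≤ 10 / 3 :=
      sqrt_le_of (by norm_num) (le_trans (by exact_mod_cast h3) (by norm_num : (11 : ℝ) ≤ (10 / 3) ^ 2))
    have h6 : √((side G I false (G.op p) : ℝ) * side G I true (G.op p)) ≤ 10 / 3 :=
      sqrt_le_of (by norm_num) (le_trans (by exact_mod_cast h4) (by norm_num : (11 : ℝ) ≤ (10 / 3) ^ 2))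
    unfold weight
    rw [mul_comm (side G I true p : ℝ), mul_comm (side G I true (G.op p) : ℝ)]
    linarith

end Pool.Agent.Helper2.V8B
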