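import Pool.Agent.Helper59.V8.Cyc
import Pool.Agent.Helper2.V8B.Contract

/-!
# Sums over the steps along the circles and over the crossings, with a coefficient at every crossing

The crossing `x` (`lf x = true`) has the values `N = R x`, `S = R (sg⁻¹ x)`, `W = L x`, `E = R (op x)`, and the relation
`2 s (W + E) = (1 + s²) (N + S + q (N - S))` with a coefficient `q = q x`.
-/

set_option autoImplicit false

namespace Pool.Agent.Helper2.V8B.Ws

open Complex Finset Pool.Agent.Helper59.V8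

variable {P : Type} [Fintype P] (W : Ws P)

/-- The left visits. -/
noncomputable def X : Finset P := univ.filter fun x => W.lf x = true

variable {W}

theorem mem_X {x : P} : x ∈ W.X ↔ W.lf x = true := by
  unfold X
  simp

theorem sum_lr (f : P → ℝ) : ∑ i, f i = ∑ x ∈ W.X, (f x + f (W.op x)) := by
  have h1 : ∑ i ∈ univ.filter (fun i => ¬ W.lf i = true), f i = ∑ i ∈ univ.filter (fun i => W.lf i = true), f (W.op i) := by
    refine Finset.sum_nbij' W.op W.op ?_ ?_ ?_ ?_ ?_
    · intro i hi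
      simp only [mem_filter, mem_univ, true_and] at hi ⊢
      rw [W.lf_op]
      simpa using hi
    · intro i hi
      simp only [mem_filter, mem_univ, true_and] at hi ⊢
      rw [W.lf_op, hi]
      decide
    · intro i _
      exact W.op_op i
    · intro i _
      exact W.op_op i
    · intro i _
      rw [W.op_op]
  rw [← Finset.sum_filter_add_sum_filter_not univ (fun i => W.lf i = true), h1, ← Finset.sum_add_distrib]
  rfl

/-- The sum of a function of a step. -/
theorem sum_col (w : P → ℝ) (hw : ∀ e, w (W.sg e) = w e) (Φ : ℂ → ℂ → ℂ → ℂ → ℝ) :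
    ∑ e, w e * Φ (W.L e) (W.R e) (W.L (W.sg e)) (W.R (W.sg e)) =
    ∑ x ∈ W.X, (w x * Φ (W.L x) (W.R (W.sg.symm x)) (W.L x) (W.R x) +
      w (W.op x) * Φ (W.R (W.sg.symm x)) (W.R (W.op x)) (W.R x) (W.R (W.op x))) := by
  rw [← Equiv.sum_comp W.sg.symm, sum_lr (W := W)]
  refine Finset.sum_congr rfl fun x hx => ?_
  rw [mem_X] at hx
  have hx' : W.lf (W.op x) = false := by
    rw [W.lf_op, hx]
    rfl
  have hw' : ∀ e, w (W.sg.symm e) = w e := fun e => by
    have := hw (W.sg.symm e)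
    rw [Equiv.apply_symm_apply] at this
    exact this.symm
  rw [Equiv.apply_symm_apply, Equiv.apply_symm_apply, hw', hw', W.west x hx, W.east _ hx', ← W.north x hx, ← W.south x hx]

/-- Telescoping along the circles. -/
theorem sum_tel (Ψ : ℂ → ℂ → ℝ) :
    ∑ x ∈ W.X, ((Ψ (W.L x) (W.R x) - Ψ (W.L x) (W.R (W.sg.symm x))) +
      (Ψ (W.R x) (W.R (W.op x)) - Ψ (W.R (W.sg.symm x)) (W.R (W.op x)))) = 0 := by
  have h := sum_col (W := W) (fun _ => 1) (fun _ => rfl) (fun l r l' r' => Ψ l' r' - Ψ l r)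
  simp only [one_mul] at h
  rw [← h, Finset.sum_sub_distrib, Equiv.sum_comp W.sg (fun e => Ψ (W.L e) (W.R e)), sub_self]

/-- **The identities.** -/
theorem identities {s : ℂ} (hs0 : s ≠ 0) (q : P → ℂ)
    (hq : ∀ x ∈ W.X, 2 * s * (W.L x + W.R (W.op x)) =
      (1 + s ^ 2) * (W.R x + W.R (W.sg.symm x) + q x * (W.R x - W.R (W.sg.symm x)))) {a j : ℝ} {Q : ℂ}
    (ha : a = ∑ x ∈ W.X, (2 * ((starRingEnd ℂ) (W.R (W.sg.symm x)) * W.R x).im))
    (hj : j = ∑ x ∈ W.X, ((W.L x + W.R (W.op x)) * (starRingEnd ℂ) (W.R x - W.R (W.sg.symm x))).im)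
    (hQ : Q = ∑ x ∈ W.X, q x * (normSq (W.R x - W.R (W.sg.symm x)) : ℝ)) :
    (s + s⁻¹).im * a = -((s + s⁻¹) * Q).re ∧ 2 * ((s + s⁻¹).im * j) = normSq (s + s⁻¹) * Q.re := by
  have t1 := sum_tel (W := W) (fun l r => (l * (starRingEnd ℂ) r).re)
  have t2 := sum_tel (W := W) (fun _ r => normSq r)
  have t1' : ∑ x ∈ W.X, ((W.L x + W.R (W.op x)) * (starRingEnd ℂ) (W.R x - W.R (W.sg.symm x))).re = 0 := by
    rw [← t1]
    refine Finset.sum_congr rfl fun x _ => ?_
    simp only [map_sub, mul_re, add_re, add_im, sub_re, sub_im, conj_re, conj_im]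
    ring
  have t2' : ∑ x ∈ W.X, (normSq (W.R x) - normSq (W.R (W.sg.symm x))) = 0 := by
    rw [← t2]
    refine Finset.sum_congr rfl fun x _ => ?_
    ring
  set w : ℂ := s + s⁻¹ with hw
  have hws : s * w = 1 + s ^ 2 := by
    rw [hw, mul_add, mul_inv_cancel₀ hs0]
    ring
  have key : 2 * (I * (j : ℂ)) = w * (Q - I * (a : ℂ)) := by
    have e1 : ∑ x ∈ W.X, (W.L x + W.R (W.op x)) * (starRingEnd ℂ) (W.R x - W.R (W.sg.symm x)) = I * (j : ℂ) := by
      apply Complex.ext
      · rw [Complex.re_sum, t1']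
        simp
      · rw [Complex.im_sum, ← hj]
        simp
    have e2 : ∑ x ∈ W.X, (W.R x + W.R (W.sg.symm x) + q x * (W.R x - W.R (W.sg.symm x))) * (starRingEnd ℂ) (W.R x - W.R (W.sg.symm x)) =
        Q - I * (a : ℂ) := by
      have e3 : ∀ x, (W.R x + W.R (W.sg.symm x) + q x * (W.R x - W.R (W.sg.symm x))) * (starRingEnd ℂ) (W.R x - W.R (W.sg.symm x)) =
          ((normSq (W.R x) - normSq (W.R (W.sg.symm x)) : ℝ) : ℂ) + q x * (normSq (W.R x - W.R (W.sg.symm x)) : ℝ) -
            I * ((2 * ((starRingEnd ℂ) (W.R (W.sg.symm x)) * W.R x).im : ℝ) : ℂ) := by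
        intro x
        have e4 : q x * (normSq (W.R x - W.R (W.sg.symm x)) : ℝ) =
            q x * ((W.R x - W.R (W.sg.symm x)) * (starRingEnd ℂ) (W.R x - W.R (W.sg.symm x))) := by
          rw [Complex.mul_conj]
        rw [e4, add_mul, mul_assoc]
        have e5 : (W.R x + W.R (W.sg.symm x)) * (starRingEnd ℂ) (W.R x - W.R (W.sg.symm x)) =
            ((normSq (W.R x) - normSq (W.R (W.sg.symm x)) : ℝ) : ℂ) - I * ((2 * ((starRingEnd ℂ) (W.R (W.sg.symm x)) * W.R x).im : ℝ) : ℂ) := by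
          apply Complex.ext
          · simp only [map_sub, mul_re, mul_im, add_re, add_im, sub_re, sub_im, conj_re, conj_im, normSq_apply, ofReal_re, ofReal_im, I_re, I_im]
            ring
          · simp only [map_sub, mul_re, mul_im, add_re, add_im, sub_re, sub_im, conj_re, conj_im, normSq_apply, ofReal_re, ofReal_im, I_re, I_im]
            ring
        rw [e5]
        ring
      simp only [e3]
      rw [Finset.sum_sub_distrib, Finset.sum_add_distrib, ← Complex.ofReal_sum, t2', ← hQ, ← Finset.mul_sum, ← Complex.ofReal_sum, ← ha]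
      simp
    rw [← e1, ← e2, Finset.mul_sum, Finset.mul_sum]
    refine Finset.sum_congr rfl fun x hx => ?_
    have h1 := hq x hx
    rw [← hws] at h1
    have h2 : 2 * (W.L x + W.R (W.op x)) = w * (W.R x + W.R (W.sg.symm x) + q x * (W.R x - W.R (W.sg.symm x))) := by
      refine mul_left_cancel₀ hs0 ?_
      linear_combination h1
    rw [← mul_assoc, h2]
    ring
  have k1 := congrArg Complex.re key
  have k2 := congrArg Complex.im key
  simp only [mul_re, mul_im, sub_re, sub_im, I_re, I_im, ofReal_re, ofReal_im, re_ofNat, im_ofNat] at k1 k2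
  constructor
  · rw [mul_re]
    linear_combination -k1
  · rw [normSq_apply]
    linear_combination w.im * k2 + w.re * k1

/-- **The lens**: if the sum of the weights of the two circles is small at every crossing with `N ≠ S`, then there is no such crossing. -/
theorem zero_of {s : ℂ} (hs0 : s ≠ 0) (q : P → ℂ)
    (hq : ∀ x, W.lf x = true → 2 * s * (W.L x + W.R (W.op x)) =
      (1 + s ^ 2) * (W.R x + W.R (W.sg.symm x) + q x * (W.R x - W.R (W.sg.symm x))))
    {al : ℝ} (h0 : 0 ≤ al) (w : P → ℝ) (hw : ∀ e, w (W.sg e) = w e)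
    (hb : ∀ e, |∑ k ∈ range (Function.minimalPeriod W.sg e),
        fj (W.L ((W.sg ^ k) e)) (W.R ((W.sg ^ k) e)) (W.L ((W.sg ^ (k + 1)) e)) (W.R ((W.sg ^ (k + 1)) e))| +
      al * |∑ k ∈ range (Function.minimalPeriod W.sg e),
        fa (W.L ((W.sg ^ k) e)) (W.R ((W.sg ^ k) e)) (W.L ((W.sg ^ (k + 1)) e)) (W.R ((W.sg ^ (k + 1)) e))| ≤
      w e * ∑ k ∈ range (Function.minimalPeriod W.sg e),
        fu (W.L ((W.sg ^ k) e)) (W.R ((W.sg ^ k) e)) (W.L ((W.sg ^ (k + 1)) e)) (W.R ((W.sg ^ (k + 1)) e)))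
    {σ : ℝ} (hσ : |σ| ≤ 1)
    (hm : ∀ x, W.lf x = true → W.R x ≠ W.R (W.sg.symm x) → (w x + w (W.op x)) * |(s + s⁻¹).im| <
      normSq (s + s⁻¹) / 2 * (q x).re + al * (σ * ((s + s⁻¹) * q x).re)) :
    ∀ x, W.lf x = true → W.R x = W.R (W.sg.symm x) := by
  have hp := perm_bound_of W.sg W.L W.R h0 w hw hb
  set a : ℝ := ∑ x ∈ W.X, (2 * ((starRingEnd ℂ) (W.R (W.sg.symm x)) * W.R x).im) with ha
  set j : ℝ := ∑ x ∈ W.X, ((W.L x + W.R (W.op x)) * (starRingEnd ℂ) (W.R x - W.R (W.sg.symm x))).im with hj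
  set Q : ℂ := ∑ x ∈ W.X, q x * (normSq (W.R x - W.R (W.sg.symm x)) : ℝ) with hQ
  obtain ⟨i1, i2⟩ := identities (W := W) hs0 q (fun x hx => hq x (mem_X.1 hx)) ha hj hQ
  have e1 : ∑ e, fj (W.L e) (W.R e) (W.L (W.sg e)) (W.R (W.sg e)) = j := by
    have h := sum_col (W := W) (fun _ => 1) (fun _ => rfl) fj
    simp only [one_mul] at h
    rw [h, hj]
    refine Finset.sum_congr rfl fun x _ => ?_
    unfold fj
    simp only [sub_self, map_zero, mul_zero, zero_im, zero_add, add_zero, map_sub, mul_im, add_re, add_im, sub_re, sub_im, conj_re, conj_im]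
    ring
  have e2 : ∑ e, fa (W.L e) (W.R e) (W.L (W.sg e)) (W.R (W.sg e)) = a := by
    have h := sum_col (W := W) (fun _ => 1) (fun _ => rfl) fa
    simp only [one_mul] at h
    rw [h, ha]
    refine Finset.sum_congr rfl fun x _ => ?_
    unfold fa
    simp only [mul_im, conj_re, conj_im]
    ring
  have e3 : ∑ e, w e * fu (W.L e) (W.R e) (W.L (W.sg e)) (W.R (W.sg e)) =
      ∑ x ∈ W.X, (w x + w (W.op x)) * normSq (W.R x - W.R (W.sg.symm x)) := by
    rw [sum_col (W := W) w hw fu]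
    refine Finset.sum_congr rfl fun x _ => ?_
    unfold fu
    rw [sub_self, sub_self, map_zero]
    ring
  rw [e1, e2, e3] at hp
  set v : ℂ := s + s⁻¹ with hv
  have f1 : ∑ x ∈ W.X, (normSq v / 2 * (q x).re + al * (σ * (v * q x).re)) * normSq (W.R x - W.R (W.sg.symm x)) =
      normSq v / 2 * Q.re + al * (σ * (v * Q).re) := by
    rw [hQ, Complex.re_sum, Finset.mul_sum (s := W.X) (a := v), Complex.re_sum, Finset.mul_sum, Finset.mul_sum, Finset.mul_sum, ← Finset.sum_add_distrib]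
    refine Finset.sum_congr rfl fun x _ => ?_
    have g : (v * (q x * (normSq (W.R x - W.R (W.sg.symm x)) : ℝ))).re = (v * q x).re * normSq (W.R x - W.R (W.sg.symm x)) := by
      rw [← mul_assoc, Complex.re_mul_ofReal]
    rw [g, Complex.re_mul_ofReal]
    ring
  have f2 : normSq v / 2 * Q.re + al * (σ * (v * Q).re) ≤ |v.im| * (|j| + al * |a|) := by
    have g1 : normSq v / 2 * Q.re = v.im * j := by linarith
    have g2 : (v * Q).re = -(v.im * a) := by linarith
    rw [g1, g2]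
    have g3 : v.im * j ≤ |v.im| * |j| := by
      rw [← abs_mul]
      exact le_abs_self _
    have g4 : σ * -(v.im * a) ≤ |v.im| * |a| := by
      calc σ * -(v.im * a) ≤ |σ * -(v.im * a)| := le_abs_self _
        _ = |σ| * (|v.im| * |a|) := by rw [abs_mul, abs_neg, abs_mul]
        _ ≤ 1 * (|v.im| * |a|) := mul_le_mul_of_nonneg_right hσ (by positivity)
        _ = _ := one_mul _
    have g5 := mul_le_mul_of_nonneg_left g4 h0
    linarith
  have f3 := mul_le_mul_of_nonneg_left hp (abs_nonneg v.im)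
  have f4 : ∑ x ∈ W.X, ((normSq v / 2 * (q x).re + al * (σ * (v * q x).re)) - (w x + w (W.op x)) * |v.im|) *
      normSq (W.R x - W.R (W.sg.symm x)) ≤ 0 := by
    have g1 : ∑ x ∈ W.X, ((normSq v / 2 * (q x).re + al * (σ * (v * q x).re)) - (w x + w (W.op x)) * |v.im|) *
      normSq (W.R x - W.R (W.sg.symm x)) =
      ∑ x ∈ W.X, (normSq v / 2 * (q x).re + al * (σ * (v * q x).re)) * normSq (W.R x - W.R (W.sg.symm x)) -
        |v.im| * ∑ x ∈ W.X, (w x + w (W.op x)) * normSq (W.R x - W.R (W.sg.symm x)) := by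
      rw [Finset.mul_sum, ← Finset.sum_sub_distrib]
      refine Finset.sum_congr rfl fun x _ => ?_
      ring
    rw [g1, f1]
    linarith
  have f5 : ∀ x ∈ W.X, 0 ≤ ((normSq v / 2 * (q x).re + al * (σ * (v * q x).re)) - (w x + w (W.op x)) * |v.im|) *
      normSq (W.R x - W.R (W.sg.symm x)) := by
    intro x hx
    by_cases h : W.R x = W.R (W.sg.symm x)
    · rw [h, sub_self, map_zero, mul_zero]
    · have := hm x (mem_X.1 hx) h
      exact mul_nonneg (by linarith) (normSq_nonneg _)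
  intro x hx
  by_contra hne
  have f6 := (Finset.sum_eq_zero_iff_of_nonneg f5).1 (le_antisymm f4 (Finset.sum_nonneg f5)) x (mem_X.2 hx)
  have f7 := hm x hx hne
  rcases mul_eq_zero.1 f6 with f8 | f8
  · linarith
  · exact hne (sub_eq_zero.1 (normSq_eq_zero.1 f8))

end Pool.Agent.Helper2.V8B.Ws
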