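import Pool.Agent.Helper59.V8.Main
import Pool.Agent.Helper2.V8B.Bridge
import Pool.Agent.Helper2.V8B.Sums

/-!
# The criterion with twist regions
-/

set_option autoImplicit false

namespace Pool.Agent.Helper2.V8B

open Complex Finset Polynomial Pool.Agent.Helper85.Exp Pool.Agent.Helper60.EV2 Pool.Agent.Helper2.PD Pool.Agent.Helper16.PD Pool.Agent.Helper43.Pln
  Pool.Agent.Helper30.VQ

variable {P : Type} {G : Sh P}

/-- The system of a colouring. -/
noncomputable def ofG (ho : ∀ i, G.op i ≠ i) (c : Face G → ℂ) : Ws P where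
  sg := seifert G
  op := G.op
  lf := G.lf
  L p := c (Lf G p)
  R p := c (Rf G p)
  op_op := G.op_op
  lf_op p := G.lf_op p (ho p)
  west p hp := by
    show c (Lf G (G.nxt.symm (G.op p))) = c (Lf G p)
    rw [corner_W hp (ho p)]
  east p hp := by
    have h1 : G.lf (G.op p) = true := by rw [G.lf_op p (ho p), hp]; rfl
    have h2 := corner_E h1 (ho _)
    rw [G.op_op] at h2
    show c (Rf G (G.nxt.symm (G.op p))) = c (Rf G p)
    rw [h2]
  south p hp := by
    show c (Rf G (G.nxt.symm (G.op p))) = c (Lf G (G.nxt.symm (G.op (G.op p))))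
    rw [G.op_op, corner_S hp]
  north p hp := by
    show c (Rf G p) = c (Lf G (G.op p))
    rw [corner_N hp]

theorem pos_ofG (ho : ∀ i, G.op i ≠ i) {s : ℂ} {c : Face G → ℂ}
    (hc : ∀ x : Cr G, c (Rf G x.1) + s ^ 2 * c (Lf G (G.nxt.symm x.1)) = s * (c (Lf G x.1) + c (Rf G (G.op x.1)))) :
    Ws.Blk.Pos (ofG ho c) s := by
  intro p hp
  have h1 := hc ⟨p, hp⟩
  have h2 := (ofG ho c).south p hp
  rw [h2]
  have h3 : (ofG ho c).L ((ofG ho c).sg.symm ((ofG ho c).op p)) = c (Lf G (G.nxt.symm p)) := by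
    show c (Lf G (G.nxt.symm (G.op (G.op p)))) = _
    rw [G.op_op]
  rw [h3]
  exact h1

theorem blk_ofG (ho : ∀ i, G.op i ≠ i) (c : Face G → ℂ) {I : P → Prop} (hI : Bigons G I) : Ws.Blk (ofG ho c) I where
  bi p hp := by
    obtain ⟨h1, h2⟩ := hI.bigon p hp
    refine ⟨?_, h2⟩
    show G.op (G.nxt (G.op p)) = G.op (G.op (G.nxt p))
    rw [h1]
  op := hI.op

variable [Fintype P]

/-- **No colouring outside the sector.** `K`: circles on which the colouring is constant. -/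
theorem zero_T (hG : Plane G) {s : ℂ} (hs0 : s ≠ 0) (hs : ‖s‖ < 1)
    {α : ℝ} (h0 : 0 ≤ α) (h1 : α ≤ 1) {I : P → Prop} (hI : Bigons G I)
    (hmar : ∀ m : ℕ, 0 < m → (if m = 2 then 5 / 3 + α else √3 + 9 / 10 * α) * |(s + s⁻¹).im| <
      normSq (s + s⁻¹) / 2 * ((1 + (-s ^ 2) ^ m) / (1 - (-s ^ 2) ^ m)).re +
        α * ((if 0 ≤ s.re then 1 else -1) * ((s + s⁻¹) * ((1 + (-s ^ 2) ^ m) / (1 - (-s ^ 2) ^ m))).re))
    {c : Face G → ℂ} (hc : ∀ x : Cr G, c (Rf G x.1) + s ^ 2 * c (Lf G (G.nxt.symm x.1)) = s * (c (Lf G x.1) + c (Rf G (G.op x.1))))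
    (K : P → Prop) (hK : ∀ a, K a → ∀ e, (seifert G).SameCycle a e → c (Lf G (seifert G e)) = c (Lf G e) ∧ c (Rf G (seifert G e)) = c (Rf G e))
    (hw : ∀ p, ¬ I p → ¬ K p → ¬ K (G.op p) → weight α G I p + weight α G I (G.op p) ≤ √3 + 9 / 10 * α ∧
      (Two G I p → weight α G I p + weight α G I (G.op p) ≤ 5 / 3 + α)) (b : P) (hb1 : c (Lf G b) = 0) (hb2 : c (Rf G b) = 0) :
    ∀ f, c f = 0 := by
  classical
  have ho := hG.cross
  set W := ofG ho c with hW
  have hp := pos_ofG ho hc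
  have hB := blk_ofG ho c hI
  -- constancy on the circles in K
  have hKc : ∀ a, K a → ∀ (k : ℕ) (e : P), (seifert G).SameCycle a e → c (Lf G (((seifert G) ^ k) e)) = c (Lf G e) ∧
      c (Rf G (((seifert G) ^ k) e)) = c (Rf G e) := by
    intro a ha k e he
    induction k with
    | zero => exact ⟨rfl, rfl⟩
    | succ k ih =>
      have h2 := hK a ha (((seifert G) ^ k) e) (he.trans ⟨(k : ℤ), by rw [zpow_natCast]⟩)
      rw [pow_succ', Equiv.Perm.mul_apply]
      exact ⟨h2.1.trans ih.1, h2.2.trans ih.2⟩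
  have hr : ∀ x : {p // ¬ I p}, (1 : ℂ) - (-s ^ 2) ^ Ws.Blk.len W I x ≠ 0 := fun x h =>
    Ws.Blk.rho_pow_ne hs (Ws.Blk.len_pos x) (by linear_combination -h)
  have hz : ∀ x : {p // ¬ I p}, hB.ct.lf x = true → hB.ct.R x = hB.ct.R (hB.ct.sg.symm x) := by
    refine Ws.zero_of (W := hB.ct) hs0 (fun x => (1 + (-s ^ 2) ^ Ws.Blk.len W I x) / (1 - (-s ^ 2) ^ Ws.Blk.len W I x)) ?_ h0
      (wt α (rp (seifert G) (fun p => ¬ I p)) (lst G I)) (fun e => wt_apply (α := α) (rp (seifert G) (fun p => ¬ I p)) (lst G I) e) ?_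
      (σ := if 0 ≤ s.re then 1 else -1) (by split_ifs <;> simp) ?_
    · intro x hx
      have h2 := hB.block hp x hx
      have h3 := hr x
      refine mul_right_cancel₀ h3 ?_
      have h4 : ((1 + (-s ^ 2) ^ Ws.Blk.len W I x) / (1 - (-s ^ 2) ^ Ws.Blk.len W I x)) * (1 - (-s ^ 2) ^ Ws.Blk.len W I x) =
          1 + (-s ^ 2) ^ Ws.Blk.len W I x := div_mul_cancel₀ _ h3
      linear_combination 2 * h2 - (1 + s ^ 2) * (hB.ct.R x - hB.ct.R (hB.ct.sg.symm x)) * h4
    · intro e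
      refine cycle_wt h0 h1 (rp (seifert G) (fun p => ¬ I p)) hB.ct.L hB.ct.R (lst G I) (fun e he => ?_) (fun e he => ?_) e
      · have he' : G.lf (rp (seifert G) (fun p => ¬ I p) e : {p // ¬ I p}) = false := by
          unfold lst at he
          simpa using he
        exact Ws.east' (W := hB.ct) (p := e) he'
      · have he' : G.lf (rp (seifert G) (fun p => ¬ I p) e : {p // ¬ I p}) = true := by
          unfold lst at he
          simpa using he
        exact Ws.west' (W := hB.ct) (p := e) he'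
    · intro x hx hne
      have hx' : G.lf x = true := hx
      -- the block before `x`
      obtain ⟨q, hq⟩ := (rp (seifert G) (fun p => ¬ I p)).surjective x
      have hq' : hB.ct.sg.symm x = q := by
        rw [← hq]
        exact Equiv.symm_apply_apply _ _
      have hxq : (x : P) = ((seifert G) ^ rt (seifert G) (fun p => ¬ I p) q) q := by
        rw [← hq]
        rfl
      have hsame : (seifert G).SameCycle x q := by
        refine Equiv.Perm.SameCycle.symm ⟨(rt (seifert G) (fun p => ¬ I p) q : ℤ), ?_⟩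
        rw [zpow_natCast]
        exact hxq.symm
      have hK1 : ¬ K x := by
        intro h
        apply hne
        rw [hq']
        show c (Rf G x) = c (Rf G q)
        have h2 := (hKc x h (rt (seifert G) (fun p => ¬ I p) q) q hsame).2
        rw [← hxq] at h2
        exact h2
      have hK2 : ¬ K (G.op x) := by
        intro h
        apply hne
        have h5 := hB.ct.north x hx
        have h6 := hB.ct.south x hx
        rw [h5, h6]
        obtain ⟨q2, hq2⟩ := (rp (seifert G) (fun p => ¬ I p)).surjective (hB.ct.op x)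
        have hq2' : hB.ct.sg.symm (hB.ct.op x) = q2 := by
          rw [← hq2]
          exact Equiv.symm_apply_apply _ _
        have hxq2 : G.op x = ((seifert G) ^ rt (seifert G) (fun p => ¬ I p) q2) q2 := by
          have : (hB.ct.op x : P) = (rp (seifert G) (fun p => ¬ I p) q2 : {p // ¬ I p}) := by rw [hq2]
          exact this
        have hsame2 : (seifert G).SameCycle (G.op x) q2 := by
          refine Equiv.Perm.SameCycle.symm ⟨(rt (seifert G) (fun p => ¬ I p) q2 : ℤ), ?_⟩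
          rw [zpow_natCast]
          exact hxq2.symm
        rw [hq2']
        show c (Lf G (G.op x)) = c (Lf G q2)
        have h2 := (hKc (G.op x) h (rt (seifert G) (fun p => ¬ I p) q2) q2 hsame2).1
        rw [← hxq2] at h2
        exact h2
      have hw1 := hw x x.2 hK1 hK2
      have e1 := wt_eq (G := G) α x
      have e2 := wt_eq (G := G) α (hB.ct.op x)
      have e3 : ((hB.ct.op x : {p // ¬ I p}) : P) = G.op x := rfl
      rw [e3] at e2
      rw [e1, e2]
      have hm := hmar (Ws.Blk.len W I x) (Ws.Blk.len_pos x)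
      refine lt_of_le_of_lt (mul_le_mul_of_nonneg_right ?_ (abs_nonneg _)) hm
      split_ifs with h2
      · exact hw1.2 (Ws.Blk.len_two h2)
      · exact hw1.1
  have hall : ∀ x : Cr G, c (Rf G x.1) = c (Lf G (G.nxt.symm x.1)) := by
    intro x
    have h2 := hB.all_of hs hp hz (p := x.1) x.2
    have h3 := (ofG ho c).south x.1 x.2
    rw [h3] at h2
    have h4 : (ofG ho c).L ((ofG ho c).sg.symm ((ofG ho c).op x.1)) = c (Lf G (G.nxt.symm x.1)) := by
      show c (Lf G (G.nxt.symm (G.op (G.op x.1)))) = _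
      rw [G.op_op]
    rw [h4] at h2
    exact h2
  exact Pool.Agent.Helper59.V8.zero_of_const ho hG.conn c s hs0 hc hall b hb1 hb2

/-- A parameter `s` with `|s| < 1` outside the sector. -/
theorem exists_s {z : ℂ} (hz : z.im ^ 2 < 3 * z.re ^ 2) : ∃ s : ℂ, s ≠ 0 ∧ ‖s‖ < 1 ∧ s⁻¹ - s = z := by
  obtain ⟨s, hs0, rfl⟩ := Pool.Agent.Helper59.V8.exists_s z
  rcases lt_trichotomy ‖s‖ 1 with h | h | h
  · exact ⟨s, hs0, h, rfl⟩
  · exfalso
    have h1 : s⁻¹ = (starRingEnd ℂ) s := by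
      rw [Complex.inv_def, Complex.normSq_eq_norm_sq, h]
      simp
    rw [h1] at hz
    simp only [sub_re, conj_re, sub_self, sub_im, conj_im] at hz
    nlinarith [sq_nonneg (-s.im - s.im)]
  · refine ⟨-s⁻¹, neg_ne_zero.2 (inv_ne_zero hs0), ?_, ?_⟩
    · rw [norm_neg, norm_inv]
      exact inv_lt_one_of_one_lt₀ h
    · rw [← neg_inv, inv_inv]
      ring

/-- **The criterion**, with a set `K` of circles on which all colourings are constant. -/
theorem main_K (hmar : ∀ {s : ℂ}, s ≠ 0 → ‖s‖ < 1 → (s⁻¹ - s).im ^ 2 < 3 * (s⁻¹ - s).re ^ 2 → ∀ {α : ℝ}, 0 ≤ α → α ≤ 1 → ∀ {m : ℕ}, 0 < m →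
      (if m = 2 then 5 / 3 + α else √3 + 9 / 10 * α) * |(s + s⁻¹).im| <
      normSq (s + s⁻¹) / 2 * ((1 + (-s ^ 2) ^ m) / (1 - (-s ^ 2) ^ m)).re +
        α * ((if 0 ≤ s.re then 1 else -1) * ((s + s⁻¹) * ((1 + (-s ^ 2) ^ m) / (1 - (-s ^ 2) ^ m))).re))
    (hG : Plane G) (nab : Dg G → ℤ[X]) (hn : Cs nab) {α : ℝ} (h0 : 0 ≤ α) (h1 : α ≤ 1) {I : P → Prop} (hI : Bigons G I) (K : P → Prop)
    (hK : ∀ s : ℂ, s ≠ 0 → ‖s‖ < 1 → (s⁻¹ - s).im ^ 2 < 3 * (s⁻¹ - s).re ^ 2 → ∀ c : Face G → ℂ,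
      (∀ x : Cr G, c (Rf G x.1) + s ^ 2 * c (Lf G (G.nxt.symm x.1)) = s * (c (Lf G x.1) + c (Rf G (G.op x.1)))) →
      ∀ a, K a → ∀ e, (seifert G).SameCycle a e → c (Lf G (seifert G e)) = c (Lf G e) ∧ c (Rf G (seifert G e)) = c (Rf G e))
    (hw : ∀ p, ¬ I p → ¬ K p → ¬ K (G.op p) → weight α G I p + weight α G I (G.op p) ≤ √3 + 9 / 10 * α ∧
      (Two G I p → weight α G I p + weight α G I (G.op p) ≤ 5 / 3 + α)) :
    (∀ z : ℂ, aeval z (nab (allPos G)) = 0 → 3 * z.re ^ 2 ≤ z.im ^ 2) ∧ LogConcave G nab := by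
  have key : ∀ z : ℂ, aeval z (nab (allPos G)) = 0 → 3 * z.re ^ 2 ≤ z.im ^ 2 := by
    intro z hz
    by_contra hcon
    push Not at hcon
    obtain ⟨s, hs0, hs, rfl⟩ := exists_s hcon
    obtain ⟨b⟩ := nonempty_of hG
    obtain ⟨c, ⟨f, hf⟩, hc1, hc2, hc⟩ := Pool.Agent.Helper59.V8.exists_col hG nab hn hs0 hz b
    exact hf (zero_T hG hs0 hs h0 h1 hI (fun m hm => hmar hs0 hs hcon h0 h1 hm) hc K (hK s hs0 hs hcon c hc) hw _ hc1 hc2 f)
  exact ⟨key, Pool.Agent.Helper59.V8.lc_of_sector hG nab hn key⟩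

end Pool.Agent.Helper2.V8B
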