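import Pool.Agent.Helper2.V8B.Main
import Pool.Agent.Helper30.VQ.Block
import Pool.Agent.Helper76.S4.Loc21
import Pool.Agent.Helper60.S4.RDefs

/-!
# The criterion with twist regions and rigid circles
-/

set_option autoImplicit false

namespace Pool.Agent.Helper2.V8B

open Polynomial Pool.Agent.Helper85.Exp Pool.Agent.Helper60.EV2 Pool.Agent.Helper2.PD Pool.Agent.Helper43.Pln Pool.Agent.Helper60.S4 Pool.Agent.Helper57.S4
open Pool.Agent.Helper69.S4 (Sec)

variable {P : Type} [Fintype P] {G : Sh P}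

/-- **The criterion** with the conditions only at the twist regions which lie on no rigid circle. -/
theorem main_R
    (locP : ∀ {s : ℂ}, Sec s → ∀ {c : Face G → ℂ}, Col G s c → ∀ {a : P}, RigP G a → ∀ {e : P}, Same G a e →
      c (Lf G (sq G e)) = c (Lf G e) ∧ c (Rf G (sq G e)) = c (Rf G e))
    (hG : Plane G) {α : ℝ} (h0 : 0 ≤ α) (h1 : α ≤ 1) {I : P → Prop} (hI : Bigons G I)
    (hw : ∀ p, ¬ I p → ¬ Rigid G p → ¬ Rigid G (G.op p) → weight α G I p + weight α G I (G.op p) ≤ √3 + 9 / 10 * α ∧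
      (Two G I p → weight α G I p + weight α G I (G.op p) ≤ 5 / 3 + α)) {nab : Dg G → ℤ[X]} (hn : Cs nab) :
    LogConcave G nab ∧ ∀ z : ℂ, aeval z (nab (allPos G)) = 0 → 3 * z.re ^ 2 ≤ z.im ^ 2 :=
  (main_K (fun hs0 hs hsec _ ha0 ha1 _ hm => Pool.Agent.Helper30.VQ.margin hs0 hs hsec ha0 ha1 hm) hG nab hn h0 h1 hI (Rigid G)
    (fun s hs0 hs hsec c hc a ha e he => by
      have hS : Sec s := ⟨hs0, hs, hsec⟩
      have hC : Col G s c := fun x hx => hc ⟨x, hx⟩
      rcases ha with ha | ha | ha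
      · exact loc11 hG.cross hS hC ha he
      · exact Pool.Agent.Helper76.S4.loc21 hG hS hC ha he
      · exact locP hS hC ha he) hw).symm

end Pool.Agent.Helper2.V8B
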