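import Pool.Agent.Helper60.S4.MixFinal

/-!
# At most ten twist regions
-/

set_option autoImplicit false

namespace Pool.Agent.Helper2.V8B

open Polynomial Pool.Agent.Helper85.Exp Pool.Agent.Helper60.EV2 Pool.Agent.Helper2.PD Pool.Agent.Helper43.Pln Pool.Agent.Helper60.S4

variable {P : Type} [Fintype P] {G : Sh P}

omit [Fintype P] in
theorem pow_op {I : P → Prop} (hI : Bigons G I) {q : P} (h : ∀ n : ℕ, I ((seifert G ^ n) q)) (n : ℕ) :
    G.op ((seifert G ^ n) q) = (seifert G ^ n) (G.op q) := by
  induction n with
  | zero => rfl
  | succ n ih =>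
    have h1 := (hI.bigon _ (h n)).1
    rw [pow_succ', Equiv.Perm.mul_apply, Equiv.Perm.mul_apply, ← ih]
    show G.op (G.op (G.nxt ((seifert G ^ n) q))) = G.op (G.nxt (G.op ((seifert G ^ n) q)))
    rw [h1]

/-- With at least three Seifert circles every circle has a visit outside `I`. -/
theorem exists_not_I (hG : Plane G) {I : P → Prop} (hI : Bigons G I) (h3 : 3 ≤ circles G) (q : P) : ∃ p, Same G q p ∧ ¬ I p := by
  by_contra hcon
  push Not at hcon
  have hn : ∀ n : ℕ, I ((seifert G ^ n) q) := fun n => hcon _ ⟨n, by simp⟩
  have hp := pow_op hI hn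
  have c1 : ∀ v, (Same G q v ∨ Same G (G.op q) v) → (Same G q (G.op v) ∨ Same G (G.op q) (G.op v)) := by
    intro v hv
    rcases hv with hv | hv
    · have hv' : (seifert G).SameCycle q v := hv
      obtain ⟨n, rfl⟩ := hv'.exists_nat_pow_eq
      rw [hp n]
      exact Or.inr ⟨n, by simp⟩
    · have hv' : (seifert G).SameCycle (G.op q) v := hv
      obtain ⟨n, rfl⟩ := hv'.exists_nat_pow_eq
      rw [← hp n, G.op_op]
      exact Or.inl ⟨n, by simp⟩
  have c2 : ∀ v, (Same G q (G.op v) ∨ Same G (G.op q) (G.op v)) ↔ (Same G q v ∨ Same G (G.op q) v) := by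
    intro v
    refine ⟨fun h => ?_, c1 v⟩
    have := c1 _ h
    rwa [G.op_op] at this
  have c3 : ∀ v, (Same G q (G.nxt v) ∨ Same G (G.op q) (G.nxt v)) ↔ (Same G q v ∨ Same G (G.op q) v) := by
    intro v
    have e : G.nxt v = G.op (seifert G v) := (G.op_op (G.nxt v)).symm
    rw [e, c2]
    have e2 : ∀ a, Same G a (seifert G v) ↔ Same G a v := fun a => Equiv.Perm.sameCycle_apply_right
    rw [e2, e2]
  have hall := hG.conn (fun v => Same G q v ∨ Same G (G.op q) v) ⟨q, Or.inl (Equiv.Perm.SameCycle.refl _ _)⟩ c3 c2
  have hle : circles G ≤ 2 := by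
    let F : Bool → Quotient (Equiv.Perm.SameCycle.setoid (seifert G)) := fun b => if b then Quotient.mk _ q else Quotient.mk _ (G.op q)
    have hF : Function.Surjective F := by
      intro x
      induction x using Quotient.ind with
      | _ v =>
        rcases hall v with h | h
        · exact ⟨true, Quotient.sound h⟩
        · exact ⟨false, Quotient.sound h⟩
    have h4 := Nat.card_le_card_of_surjective F hF
    have h5 : Nat.card Bool = 2 := by rw [Nat.card_eq_fintype_card, Fintype.card_bool]
    rw [h5] at h4
    exact h4
  omega

open Classical in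
theorem card_V (hG : Plane G) {I : P → Prop} (hI : Bigons G I) :
    (Finset.univ.filter fun q => ¬ I q).card = 2 * Nat.card {q : P // ¬ I q ∧ G.lf q = true} := by
  have hI' : ∀ q, I (G.op q) ↔ I q := fun q => ⟨fun h => by have := hI.op _ h; rwa [G.op_op] at this, hI.op q⟩
  rw [Nat.card_eq_fintype_card, Fintype.card_subtype]
  have h2 : (Finset.univ.filter fun q => ¬ I q ∧ G.lf q = true).card = (Finset.univ.filter fun q => ¬ I q ∧ G.lf q = false).card := by
    refine Finset.card_bij (fun q _ => G.op q) ?_ ?_ ?_
    · intro q hq
      simp only [Finset.mem_filter, Finset.mem_univ, true_and] at hq ⊢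
      refine ⟨fun h => hq.1 ((hI' q).1 h), ?_⟩
      rw [G.lf_op _ (hG.cross q), hq.2]
      rfl
    · intro q _ r _ h
      have := congrArg G.op h
      rwa [G.op_op, G.op_op] at this
    · intro q hq
      simp only [Finset.mem_filter, Finset.mem_univ, true_and] at hq
      refine ⟨G.op q, ?_, G.op_op q⟩
      simp only [Finset.mem_filter, Finset.mem_univ, true_and]
      refine ⟨fun h => hq.1 ((hI' q).1 h), ?_⟩
      rw [G.lf_op _ (hG.cross q), hq.2]
      rfl
  have h3 : (Finset.univ.filter fun q => ¬ I q).card = (Finset.univ.filter fun q => ¬ I q ∧ G.lf q = true).card +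
      (Finset.univ.filter fun q => ¬ I q ∧ G.lf q = false).card := by
    rw [← Finset.card_union_of_disjoint]
    · congr 1
      ext q
      simp only [Finset.mem_union, Finset.mem_filter, Finset.mem_univ, true_and]
      cases h : G.lf q <;> simp
    · rw [Finset.disjoint_left]
      intro q h1 h2
      simp only [Finset.mem_filter, Finset.mem_univ, true_and] at h1 h2
      rw [h1.2] at h2
      exact absurd h2.2 (by simp)
  omega

/-- Two Seifert circles which meet at a crossing: every other Seifert circle has at least one twist region. -/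
theorem total_le_sub (hG : Plane G) {I : P → Prop} (hI : Bigons G I) (h3 : 3 ≤ circles G) (p : P) :
    total G I p + total G I (G.op p) + circles G ≤ 2 * Nat.card {q : P // ¬ I q ∧ G.lf q = true} + 2 := by
  classical
  rw [← card_V hG hI, total_card, total_card, ← Finset.card_union_of_disjoint]
  · set A := (Finset.univ.filter fun q => (seifert G).SameCycle p q ∧ ¬ I q) ∪ (Finset.univ.filter fun q => (seifert G).SameCycle (G.op p) q ∧ ¬ I q) with hA
    set B := Finset.univ.filter fun q => ¬ I q ∧ ¬ (seifert G).SameCycle p q ∧ ¬ (seifert G).SameCycle (G.op p) q with hB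
    have hAB : A.card + B.card ≤ (Finset.univ.filter fun q => ¬ I q).card := by
      rw [← Finset.card_union_of_disjoint]
      · refine Finset.card_le_card fun q hq => ?_
        rw [hA, hB] at hq
        simp only [Finset.mem_union, Finset.mem_filter, Finset.mem_univ, true_and] at hq ⊢
        rcases hq with (h | h) | h
        · exact h.2
        · exact h.2
        · exact h.1
      · rw [Finset.disjoint_left]
        intro q h1 h2
        rw [hA] at h1
        rw [hB] at h2
        simp only [Finset.mem_union, Finset.mem_filter, Finset.mem_univ, true_and] at h1 h2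
        rcases h1 with h | h
        · exact h2.2.1 h.1
        · exact h2.2.2 h.1
    have hBc : circles G ≤ B.card + 2 := by
      let Q := Quotient (Equiv.Perm.SameCycle.setoid (seifert G))
      let m : P → Q := fun q => Quotient.mk _ q
      have hf : Fintype Q := Fintype.ofFinite Q
      have h4 : (Finset.univ : Finset Q) ⊆ B.image m ∪ {m p, m (G.op p)} := by
        intro x _
        rw [Finset.mem_union]
        induction x using Quotient.ind with
        | _ v =>
          obtain ⟨q, hq, hqI⟩ := exists_not_I hG hI h3 v
          have e : (Quotient.mk _ v : Q) = m q := Quotient.sound hq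
          rw [e]
          by_cases h1 : (seifert G).SameCycle p q
          · right
            rw [Finset.mem_insert]
            exact Or.inl (Quotient.sound h1.symm)
          · by_cases h2 : (seifert G).SameCycle (G.op p) q
            · right
              rw [Finset.mem_insert, Finset.mem_singleton]
              exact Or.inr (Quotient.sound h2.symm)
            · left
              refine Finset.mem_image_of_mem m ?_
              rw [hB]
              simp only [Finset.mem_filter, Finset.mem_univ, true_and]
              exact ⟨hqI, h1, h2⟩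
      have h5 := Finset.card_le_card h4
      have h6 : (Finset.univ : Finset Q).card = circles G := by
        rw [Finset.card_univ, ← Nat.card_eq_fintype_card]
        rfl
      have h7 := Finset.card_union_le (B.image m) {m p, m (G.op p)}
      have h8 := Finset.card_image_le (s := B) (f := m)
      have h9 := Finset.card_le_two (a := m p) (b := m (G.op p))
      omega
    omega
  · rw [Finset.disjoint_left]
    intro q h1 h2
    simp only [Finset.mem_filter, Finset.mem_univ, true_and] at h1 h2
    exact lf_other hG p (h1.1.trans h2.1.symm)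

/-- **At most ten twist regions**, or at most `(15 + circles) / 2` twist regions. -/
theorem ten (hG : Plane G) {I : P → Prop} (hI : Bigons G I)
    (h : Nat.card {p : P // ¬ I p ∧ G.lf p = true} ≤ 10 ∨ 2 * Nat.card {p : P // ¬ I p ∧ G.lf p = true} ≤ 15 + circles G)
    {nab : Dg G → ℤ[X]} (hn : Cs nab) :
    LogConcave G nab ∧ ∀ z : ℂ, aeval z (nab (allPos G)) = 0 → 3 * z.re ^ 2 ≤ z.im ^ 2 := by
  rcases Nat.lt_or_ge 4 (circles G) with h5 | h4
  · refine mainR hG zero_le_one le_rfl hI (hw17R hI fun p _ _ _ => ?_) hn
    have h1 := total_le_sub hG hI (by omega) p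
    omega
  · exact mainR hG le_rfl zero_le_one (I := fun _ => False) ⟨fun _ h => h.elim, fun _ h => h⟩ (fun p _ hr hr' => hw_four hG h4 _ p hr hr') hn

end Pool.Agent.Helper2.V8B
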